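import Mathlib

set_option autoImplicit false

open CategoryTheory Limits HomologicalComplex

namespace Pool.Agent.H.MP_e7c909_al

universe w v u v' u'

section
variable {C : Type u} [Category.{v} C] [Abelian C] {T : Type u'} [Category.{v'} T]

/-- a functor to cochain complexes, seen as a cochain complex of functors -/
def famC (X : T ⥤ CochainComplex C ℤ) : CochainComplex (T ⥤ C) ℤ where
  X n := X ⋙ eval C _ n
  d n m := { app := fun j => (X.obj j).d n m
             naturality := fun i j f => ((X.map f).comm n m) }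
  shape n m h := by
    ext j
    exact (X.obj j).shape n m h
  d_comp_d' n m k _ _ := by
    ext j
    exact (X.obj j).d_comp_d n m k

/-- functoriality of `famC` -/
def famMap {X Y : T ⥤ CochainComplex C ℤ} (φ : X ⟶ Y) : famC X ⟶ famC Y where
  f n := Functor.whiskerRight φ (eval C _ n)
  comm' n m _ := by
    ext j
    exact (φ.app j).comm n m

lemma quasiIso_famMap {X Y : T ⥤ CochainComplex C ℤ} (φ : X ⟶ Y)
    (h : ∀ t, QuasiIso (φ.app t)) : QuasiIso (famMap φ) := by
  rw [quasiIso_iff_evaluation]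
  intro t
  exact h t

variable [HasColimitsOfShape T C]

/-- the structure maps of the termwise colimit -/
noncomputable def ιn (X : T ⥤ CochainComplex C ℤ) (n : ℤ) (j : T) :
    (X.obj j).X n ⟶ colimit (X ⋙ eval C _ n) := colimit.ι (X ⋙ eval C _ n) j

/-- the structure maps of a cocone, degreewise -/
def cn {X : T ⥤ CochainComplex C ℤ} (c : Cocone X) (n : ℤ) (j : T) :
    (X.obj j).X n ⟶ c.pt.X n := (c.ι.app j).f n

lemma cn_comm {X : T ⥤ CochainComplex C ℤ} (c : Cocone X) (n m : ℤ) (j : T) :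
    cn c n j ≫ c.pt.d n m = (X.obj j).d n m ≫ cn c m j := (c.ι.app j).comm n m

/-- the termwise comparison -/
noncomputable def compn {X : T ⥤ CochainComplex C ℤ} {c : Cocone X} (hc : IsColimit c) (n : ℤ) :
    colimit (X ⋙ eval C _ n) ≅ c.pt.X n :=
  (colimit.isColimit (X ⋙ eval C _ n)).coconePointUniqueUpToIso
      (isColimitOfPreserves (eval C _ n) hc)

lemma ιn_compn {X : T ⥤ CochainComplex C ℤ} {c : Cocone X} (hc : IsColimit c) (n : ℤ) (j : T) :
    ιn X n j ≫ (compn hc n).hom = cn c n j :=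
  IsColimit.comp_coconePointUniqueUpToIso_hom
    (colimit.isColimit (X ⋙ eval C _ n)) (isColimitOfPreserves (eval C _ n) hc) j

/-- termwise differential -/
noncomputable def dn (X : T ⥤ CochainComplex C ℤ) (n m : ℤ) :
    colimit (X ⋙ eval C _ n) ⟶ colimit (X ⋙ eval C _ m) :=
  (((colim : (T ⥤ C) ⥤ C).mapHomologicalComplex (ComplexShape.up ℤ)).obj (famC X)).d n m

lemma ιn_dn (X : T ⥤ CochainComplex C ℤ) (n m : ℤ) (j : T) :
    ιn X n j ≫ dn X n m = (X.obj j).d n m ≫ ιn X m j := ι_colimMap _ _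

lemma ext_n {X : T ⥤ CochainComplex C ℤ} {n : ℤ} {Z : C} {f g : colimit (X ⋙ eval C _ n) ⟶ Z}
    (h : ∀ j, ιn X n j ≫ f = ιn X n j ≫ g) : f = g := colimit.hom_ext h

lemma compn_comm {X : T ⥤ CochainComplex C ℤ} {c : Cocone X} (hc : IsColimit c) (n m : ℤ) :
    (compn hc n).hom ≫ c.pt.d n m = dn X n m ≫ (compn hc m).hom := by
  apply ext_n
  intro j
  rw [← Category.assoc, ← Category.assoc, ιn_compn, ιn_dn, Category.assoc, ιn_compn, cn_comm]

/-- comparison of the termwise colimit with the colimit of complexes -/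
noncomputable def compIso {X : T ⥤ CochainComplex C ℤ} {c : Cocone X} (hc : IsColimit c) :
    ((colim : (T ⥤ C) ⥤ C).mapHomologicalComplex (ComplexShape.up ℤ)).obj (famC X) ≅ c.pt :=
  HomologicalComplex.Hom.isoOfComponents (fun n => compn hc n)
    (fun n m _ => compn_comm hc n m)

variable [HasExactColimitsOfShape T C]

/-- termwise map -/
noncomputable def mn {X Y : T ⥤ CochainComplex C ℤ} (φ : X ⟶ Y) (n : ℤ) :
    colimit (X ⋙ eval C _ n) ⟶ colimit (Y ⋙ eval C _ n) :=
  (((colim : (T ⥤ C) ⥤ C).mapHomologicalComplex (ComplexShape.up ℤ)).map (famMap φ)).f n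

omit [HasExactColimitsOfShape T C] in
lemma ιn_mn {X Y : T ⥤ CochainComplex C ℤ} (φ : X ⟶ Y) (n : ℤ) (j : T) :
    ιn X n j ≫ mn φ n = (φ.app j).f n ≫ ιn Y n j := ι_colimMap _ _

/-- A map of colimits of cochain complexes induced by quasi-isomorphisms is a
quasi-isomorphism. -/
lemma quasiIso_colim {X Y : T ⥤ CochainComplex C ℤ} (φ : X ⟶ Y)
    (h : ∀ t, QuasiIso (φ.app t)) {c : Cocone X} (hc : IsColimit c) {d : Cocone Y}
    (hd : IsColimit d) (s : c.pt ⟶ d.pt) (hs : ∀ j, c.ι.app j ≫ s = φ.app j ≫ d.ι.app j) :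
    QuasiIso s := by
  have h1 := quasiIso_famMap φ h
  have h2 : ∀ n, (compn hc n).hom ≫ s.f n = mn φ n ≫ (compn hd n).hom := by
    intro n
    apply ext_n
    intro j
    have h6 : cn c n j ≫ s.f n = (φ.app j).f n ≫ cn d n j :=
      congrArg (fun f => HomologicalComplex.Hom.f f n) (hs j)
    rw [← Category.assoc, ← Category.assoc, ιn_compn, ιn_mn, Category.assoc, ιn_compn, h6]
  have h2' : (compIso hc).hom ≫ s =
      ((colim : (T ⥤ C) ⥤ C).mapHomologicalComplex (ComplexShape.up ℤ)).map (famMap φ) ≫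
        (compIso hd).hom := by
    ext n
    exact h2 n
  have h3 : s = (compIso hc).inv ≫
      ((colim : (T ⥤ C) ⥤ C).mapHomologicalComplex (ComplexShape.up ℤ)).map (famMap φ) ≫
        (compIso hd).hom := by
    rw [← h2', Iso.inv_hom_id_assoc]
  rw [h3]
  have h4 : QuasiIso
      (((colim : (T ⥤ C) ⥤ C).mapHomologicalComplex (ComplexShape.up ℤ)).map (famMap φ)) :=
    inferInstance
  infer_instance

end

end Pool.Agent.H.MP_e7c909_al
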