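import Pool.Agent.H.MP_e7c909_al.Coproduct

set_option autoImplicit false

open CategoryTheory Limits HomologicalComplex

namespace Pool.Agent.H.MP_e7c909_al

universe w v u v' u'

section
variable {C : Type u} [Category.{v} C] [Abelian C] {J : Type u'}

/-- gluing of null-homotopies along a coproduct of cochain complexes -/
noncomputable def glueHomotopy [HasColimitsOfShape (Discrete J) C]
    {X : Discrete J ⥤ CochainComplex C ℤ} {c : Cocone X}
    (hc : IsColimit c) {Y : CochainComplex C ℤ} (u : c.pt ⟶ Y)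
    (h : ∀ j : Discrete J, Homotopy (c.ι.app j ≫ u : X.obj j ⟶ Y) 0) : Homotopy u 0 :=
  let hcn : ∀ n, IsColimit ((eval C _ n).mapCocone c) := fun n =>
    isColimitOfPreserves (eval C _ n) hc
  let H : ∀ n m, c.pt.X n ⟶ Y.X m := fun n m =>
    (hcn n).desc { pt := Y.X m, ι := Discrete.natTrans (fun j => (h j).hom n m) }
  have hH : ∀ n m j, cn c n j ≫ H n m = (h j).hom n m := fun n m j =>
    (hcn n).fac { pt := Y.X m, ι := Discrete.natTrans (fun j => (h j).hom n m) } j
  have hext : ∀ n {Z : C} (f g : c.pt.X n ⟶ Z), (∀ j, cn c n j ≫ f = cn c n j ≫ g) → f = g :=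
    fun n _ f g hfg => (hcn n).hom_ext hfg
  { hom := H
    zero := fun n m hnm => hext n _ _ (fun j => by rw [hH, comp_zero]; exact (h j).zero n m hnm)
    comm := fun n => hext n _ _ (fun j => by
      have h1 := (h j).comm n
      have h2 : (h j).hom = fun n m => (c.ι.app j : X.obj j ⟶ c.pt).f n ≫ H n m := by
        funext n m
        exact (hH n m j).symm
      have h3 : dNext n (h j).hom = cn c n j ≫ dNext n H := by
        rw [h2]
        exact dNext_comp_left (c.ι.app j : X.obj j ⟶ c.pt) H n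
      have h4 : prevD n (h j).hom = cn c n j ≫ prevD n H := by
        rw [h2]
        exact prevD_comp_left (c.ι.app j : X.obj j ⟶ c.pt) H n
      have h5 : cn c n j ≫ u.f n = dNext n (h j).hom + prevD n (h j).hom +
          (0 : X.obj j ⟶ Y).f n := h1
      rw [h5, h3, h4]
      simp [Preadditive.comp_add]) }

end

section
variable {C : Type u} [Category.{v} C] [Abelian C] [HasDerivedCategory.{w} C]

open DerivedCategory

/-- a map of complexes which vanishes in the derived category is null-homotopic after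
composition with a quasi-isomorphism -/
lemma exists_homotopy_of_Q_map_eq_zero {X Y : CochainComplex C ℤ} (u : X ⟶ Y)
    (hu : Q.map u = 0) : ∃ (X' : CochainComplex C ℤ) (s : X' ⟶ X), QuasiIso s ∧
      Nonempty (Homotopy (s ≫ u) 0) := by
  have h1 : Qh.map ((HomotopyCategory.quotient C (ComplexShape.up ℤ)).map u) =
      Qh.map ((HomotopyCategory.quotient C (ComplexShape.up ℤ)).map (0 : X ⟶ Y)) := by
    have h2 := quotientCompQhIso_hom_naturality (C := C) u
    rw [hu, comp_zero] at h2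
    have h3 : Qh.map ((HomotopyCategory.quotient C (ComplexShape.up ℤ)).map u) = 0 := by
      rw [← cancel_mono ((quotientCompQhIso C).hom.app Y), zero_comp]
      exact h2
    rw [h3, Functor.map_zero, Functor.map_zero]
  rw [MorphismProperty.map_eq_iff_precomp Qh
    (HomotopyCategory.quasiIso C (ComplexShape.up ℤ))] at h1
  obtain ⟨Z, s, hs, hZ⟩ := h1
  obtain ⟨X', rfl⟩ := HomotopyCategory.quotient_obj_surjective Z
  obtain ⟨s, rfl⟩ := (HomotopyCategory.quotient _ _).map_surjective s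
  refine ⟨X', s, ?_, ⟨?_⟩⟩
  · rw [← isIso_Q_map_iff_quasiIso]
    rw [← isIso_Qh_map_iff] at hs
    exact hs
  · apply HomotopyCategory.homotopyOfEq
    rw [Functor.map_comp, hZ]
    simp

variable {J : Type u'} [HasColimitsOfShape (Discrete J) C] [HasExactColimitsOfShape (Discrete J) C]

lemma exists_desc {X : Discrete J ⥤ CochainComplex C ℤ} {c : Cocone X} (hc : IsColimit c)
    {Y : CochainComplex C ℤ} (f : ∀ j : Discrete J, Q.obj (X.obj j) ⟶ Q.obj Y) :
    ∃ d : Q.obj c.pt ⟶ Q.obj Y, ∀ j, Q.map (c.ι.app j : X.obj j ⟶ c.pt) ≫ d = f j := by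
  choose X' s hs g hf using fun j => right_fac (f j)
  let F : Discrete J ⥤ CochainComplex C ℤ := Discrete.functor (fun j => X' ⟨j⟩)
  let φ : F ⟶ X := Discrete.natTrans (fun j => s j)
  let c' := colimit.cocone F
  let hc' : IsColimit c' := colimit.isColimit F
  let S : c'.pt ⟶ c.pt := hc'.desc ⟨c.pt, φ ≫ c.ι⟩
  let G : c'.pt ⟶ Y := hc'.desc ⟨Y, Discrete.natTrans (fun j => g j)⟩
  have hS : ∀ j, c'.ι.app j ≫ S = φ.app j ≫ c.ι.app j := fun j => hc'.fac _ j
  have hG : ∀ j, c'.ι.app j ≫ G = g j := fun j => hc'.fac _ j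
  have hqS : QuasiIso S := quasiIso_colim φ (fun j => by
    rw [← isIso_Q_map_iff_quasiIso]
    exact hs j) hc' hc S hS
  have hSiso : IsIso (Q.map S) := (isIso_Q_map_iff_quasiIso _ S).2 hqS
  refine ⟨inv (Q.map S) ≫ Q.map G, fun j => ?_⟩
  have hsj := hs j
  rw [← cancel_epi (Q.map (s j))]
  have h1 : Q.map (s j) ≫ Q.map (c.ι.app j : X.obj j ⟶ c.pt) =
      Q.map (c'.ι.app j : X' j ⟶ c'.pt) ≫ Q.map S := by
    rw [← Q.map_comp, ← Q.map_comp]
    exact congrArg Q.map (hS j).symm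
  have h2 : Q.map (c'.ι.app j : X' j ⟶ c'.pt) ≫ Q.map G = Q.map (g j) := by
    rw [← Q.map_comp]
    exact congrArg Q.map (hG j)
  rw [reassoc_of% h1, IsIso.hom_inv_id_assoc, h2, hf j, IsIso.hom_inv_id_assoc]

lemma eq_zero_of_restrict {X : Discrete J ⥤ CochainComplex C ℤ} {c : Cocone X} (hc : IsColimit c)
    {Y : CochainComplex C ℤ} (h : Q.obj c.pt ⟶ Q.obj Y)
    (hh : ∀ j, Q.map (c.ι.app j : X.obj j ⟶ c.pt) ≫ h = 0) : h = 0 := by
  obtain ⟨Y', g, t, ht, rfl⟩ := left_fac h
  have hg : ∀ j, Q.map ((c.ι.app j : X.obj j ⟶ c.pt) ≫ g) = 0 := by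
    intro j
    rw [Q.map_comp, ← cancel_mono (inv (Q.map t)), zero_comp, Category.assoc]
    exact hh j
  choose X' s hs hom using fun j => exists_homotopy_of_Q_map_eq_zero _ (hg j)
  let F : Discrete J ⥤ CochainComplex C ℤ := Discrete.functor (fun j => X' ⟨j⟩)
  let φ : F ⟶ X := Discrete.natTrans (fun j => s j)
  let c' := colimit.cocone F
  let hc' : IsColimit c' := colimit.isColimit F
  let S : c'.pt ⟶ c.pt := hc'.desc ⟨c.pt, φ ≫ c.ι⟩
  have hS : ∀ j, c'.ι.app j ≫ S = φ.app j ≫ c.ι.app j := fun j => hc'.fac _ j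
  have hqS : QuasiIso S := quasiIso_colim φ (fun j => hs j) hc' hc S hS
  have hSiso : IsIso (Q.map S) := (isIso_Q_map_iff_quasiIso _ S).2 hqS
  have hhom : Homotopy (S ≫ g) 0 := glueHomotopy hc' (S ≫ g) (fun j => by
    have h1 : (c'.ι.app j ≫ S ≫ g : F.obj j ⟶ Y') = s j ≫ (c.ι.app j : X.obj j ⟶ c.pt) ≫ g := by
      exact (Category.assoc _ _ _).symm.trans
        ((congrArg (fun k => k ≫ g) (hS j)).trans (Category.assoc _ _ _))
    rw [h1]
    exact (hom j).some)
  have h2 : Q.map (S ≫ g) = Q.map 0 := Q_map_eq_of_homotopy _ hhom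
  rw [Q.map_comp, Functor.map_zero] at h2
  have h3 : Q.map g = 0 := by
    rw [← cancel_epi (Q.map S), h2, comp_zero]
  rw [h3, zero_comp]

instance : PreservesColimitsOfShape (Discrete J)
    (Q : CochainComplex C ℤ ⥤ DerivedCategory C) where
  preservesColimit {X} := ⟨fun {c} hc => ⟨IsColimit.ofExistsUnique (fun s => by
    obtain ⟨Y, ⟨e⟩⟩ : ∃ Y : CochainComplex C ℤ, Nonempty (Q.obj Y ≅ s.pt) :=
      ⟨Q.objPreimage s.pt, ⟨Q.objObjPreimageIso s.pt⟩⟩
    obtain ⟨d, hd⟩ := exists_desc hc (fun j => (s.ι.app j : Q.obj (X.obj j) ⟶ s.pt) ≫ e.inv)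
    refine ⟨d ≫ e.hom, fun j => ?_, fun (d' : Q.obj c.pt ⟶ s.pt) hd' => ?_⟩
    · have := hd j
      change Q.map (c.ι.app j : X.obj j ⟶ c.pt) ≫ d ≫ e.hom = _
      rw [reassoc_of% this]
      simp
    · have h1 : (d' ≫ e.inv - d : Q.obj c.pt ⟶ Q.obj Y) = 0 := by
        apply eq_zero_of_restrict hc
        intro j
        have h2 : Q.map (c.ι.app j : X.obj j ⟶ c.pt) ≫ d' = s.ι.app j := hd' j
        rw [Preadditive.comp_sub, hd j, reassoc_of% h2, sub_self]
      have h3 : (d' ≫ e.inv : Q.obj c.pt ⟶ Q.obj Y) = d := sub_eq_zero.1 h1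
      rw [← h3]
      simp)⟩⟩

end

end Pool.Agent.H.MP_e7c909_al
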