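import Mathlib

set_option autoImplicit false

open CategoryTheory Limits

namespace Pool.Agent.H.MP_e7c909_al

universe w

/-- A localizing subcategory of the derived category `D(R)`: a full triangulated subcategory
(closed under isomorphisms) which is closed under arbitrary (small) coproducts. -/
structure IsLocalizing (R : Type) [CommRing R] [HasDerivedCategory.{w} (ModuleCat.{0} R)]
    (P : ObjectProperty (DerivedCategory (ModuleCat.{0} R))) : Prop where
  iso : P.IsClosedUnderIsomorphisms
  tri : P.IsTriangulated
  coprod : ∀ (J : Type) (X : J → DerivedCategory (ModuleCat.{0} R)) (c : Cofan X),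
    Nonempty (IsColimit c) → (∀ j, P (X j)) → P c.pt

/-- An `R`-module as an object of `D(R)` concentrated in degree zero. -/
noncomputable abbrev inDegZero (R : Type) [CommRing R] [HasDerivedCategory.{w} (ModuleCat.{0} R)]
    (M : Type) [AddCommGroup M] [Module R M] : DerivedCategory (ModuleCat.{0} R) :=
  (DerivedCategory.singleFunctor (ModuleCat.{0} R) 0).obj (ModuleCat.of R M)

/-- `R` lies in the localizing subcategory of `D(R)` generated by the residue fields `κ(p)`,
that is, in every localizing subcategory which contains all of them (for any given model of the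
derived category). -/
def StarCond (R : Type) [CommRing R] [HasDerivedCategory.{w} (ModuleCat.{0} R)] : Prop :=
  ∀ P : ObjectProperty (DerivedCategory (ModuleCat.{0} R)), IsLocalizing R P →
    (∀ p : PrimeSpectrum R, P (inDegZero R p.asIdeal.ResidueField)) → P (inDegZero R R)

/-- Condition `(∗)`: `R ∈ Loc⟨κ(p) | p ∈ Spec R⟩` in the derived category `D(R)` (the standard
model: cochain complexes of `R`-modules localized at the quasi-isomorphisms). -/
def Star (R : Type) [CommRing R] : Prop :=
  letI := HasDerivedCategory.standard (ModuleCat.{0} R)
  StarCond R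

/-- A Thomason subset: a union of closed subsets with quasi-compact complement. -/
def IsThomason {X : Type*} [TopologicalSpace X] (Y : Set X) : Prop :=
  ∃ S : Set (Set X), (∀ Z ∈ S, IsClosed Z ∧ IsCompact Zᶜ) ∧ Y = ⋃₀ S

/-- `x` is weakly visible: `{x}` is the intersection of a Thomason subset with the complement of
a Thomason subset. -/
def WeaklyVisible {X : Type*} [TopologicalSpace X] (x : X) : Prop :=
  ∃ Y₁ Y₂ : Set X, IsThomason Y₁ ∧ IsThomason Y₂ ∧ {x} = Y₁ ∩ Y₂ᶜ

/-- A space all of whose points are weakly visible. -/
def WeaklyNoetherian (X : Type*) [TopologicalSpace X] : Prop := ∀ x : X, WeaklyVisible x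

end Pool.Agent.H.MP_e7c909_al
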