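import Pool.Agent.H.MP_e7c909_al.Loc

set_option autoImplicit false

open CategoryTheory Limits DirectSum

namespace Pool.Agent.H.MP_e7c909_al

universe w

section
variable {R : Type} [CommRing R] [HasDerivedCategory.{w} (ModuleCat.{0} R)]
  {P : ObjectProperty (DerivedCategory (ModuleCat.{0} R))} (hP : IsLocalizing R P)

include hP

/-- an `r`-divisible `r`-power torsion module is built from its `r`-torsion -/
lemma pm_tors {T : Type} [AddCommGroup T] [Module R T] (r : R)
    (hdiv : ∀ t : T, ∃ t', r • t' = t) (htor : ∀ t : T, ∃ i : ℕ, r ^ i • t = 0)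
    (h : PM P (Submodule.torsionBy R T r)) : PM P T := by
  have hdiv' : ∀ (i : ℕ) (t : T), ∃ t', r ^ i • t' = t := by
    intro i
    induction i with
    | zero => intro t; exact ⟨t, by simp⟩
    | succ i ih =>
      intro t
      obtain ⟨t1, h1⟩ := ih t
      obtain ⟨t2, h2⟩ := hdiv t1
      exact ⟨t2, by rw [pow_succ, mul_smul, h2, h1]⟩
  have hstep : ∀ i : ℕ, PM P (Submodule.torsionBy R T (r ^ i)) := by
    intro i
    induction i with
    | zero =>
      have : Subsingleton (Submodule.torsionBy R T (r ^ 0)) := by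
        refine ⟨fun a b => Subtype.ext ?_⟩
        have h0 : ∀ a : T, a ∈ Submodule.torsionBy R T (r ^ 0) → a = 0 := fun a ha => by
          rw [Submodule.mem_torsionBy_iff, pow_zero, one_smul] at ha
          exact ha
        rw [h0 a.1 a.2, h0 b.1 b.2]
      exact pm_zero hP
    | succ i ih =>
      let f : Submodule.torsionBy R T (r ^ i) →ₗ[R] Submodule.torsionBy R T (r ^ (i + 1)) :=
        Submodule.inclusion (fun t ht => by
          rw [Submodule.mem_torsionBy_iff] at ht ⊢
          rw [pow_succ', mul_smul, ht, smul_zero])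
      let g : Submodule.torsionBy R T (r ^ (i + 1)) →ₗ[R] Submodule.torsionBy R T r :=
        LinearMap.codRestrict (Submodule.torsionBy R T r)
          ((r ^ i) • (Submodule.torsionBy R T (r ^ (i + 1))).subtype) (fun t => by
            have ht := (Submodule.mem_torsionBy_iff _ _).1 t.2
            rw [Submodule.mem_torsionBy_iff]
            change r • (r ^ i • (t : T)) = 0
            rw [smul_smul, ← pow_succ', ht])
      refine pm₂ hP f g ?_ ?_ ?_ ih h
      · exact Submodule.inclusion_injective _
      · intro t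
        constructor
        · intro ht
          have h1 : r ^ i • (t : T) = 0 := congrArg Subtype.val ht
          exact ⟨⟨t.1, (Submodule.mem_torsionBy_iff _ _).2 h1⟩, rfl⟩
        · rintro ⟨s, rfl⟩
          apply Subtype.ext
          exact (Submodule.mem_torsionBy_iff _ _).1 s.2
      · intro s
        obtain ⟨t, ht⟩ := hdiv' i s.1
        refine ⟨⟨t, ?_⟩, Subtype.ext ht⟩
        rw [Submodule.mem_torsionBy_iff, pow_succ', mul_smul, ht]
        exact (Submodule.mem_torsionBy_iff _ _).1 s.2
  refine pm_union hP (fun i => Submodule.torsionBy R T (r ^ i)) ?_ ?_ hstep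
  · intro i j hij t ht
    rw [Submodule.mem_torsionBy_iff] at ht ⊢
    obtain ⟨k, rfl⟩ := Nat.exists_eq_add_of_le hij
    rw [pow_add, mul_comm, mul_smul, ht, smul_zero]
  · intro t
    obtain ⟨i, hi⟩ := htor t
    exact ⟨i, (Submodule.mem_torsionBy_iff _ _).2 hi⟩

/-- from the fraction field and the residue field of a discrete valuation ring quotient of `R`
to the discrete valuation ring -/
lemma pm_dvr {κ : Type} [Field κ] [Algebra R κ] (r : R) (hr : algebraMap R κ r ≠ 0)
    (hx : ∀ x : κ, ∃ i : ℕ, ∃ b : R, (algebraMap R κ r) ^ i * x = algebraMap R κ b)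
    (m0 : Submodule R R)
    (hm0 : ∀ a, a ∈ m0 ↔ ∃ b, algebraMap R κ a = algebraMap R κ r * algebraMap R κ b)
    (h1 : PM P κ) (h2 : PM P (R ⧸ m0)) : PM P (LinearMap.range (Algebra.linearMap R κ)) := by
  set O : Submodule R κ := LinearMap.range (Algebra.linearMap R κ) with hO
  have hmemO : ∀ x : κ, x ∈ O ↔ ∃ b, algebraMap R κ b = x := fun x => by
    rw [hO, LinearMap.mem_range]; rfl
  have hT : PM P (κ ⧸ O) := by
    apply pm_tors hP r
    · intro t
      obtain ⟨x, rfl⟩ := Submodule.Quotient.mk_surjective O t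
      refine ⟨Submodule.Quotient.mk ((algebraMap R κ r)⁻¹ * x), ?_⟩
      rw [← Submodule.Quotient.mk_smul, Algebra.smul_def, ← mul_assoc, mul_inv_cancel₀ hr, one_mul]
    · intro t
      obtain ⟨x, rfl⟩ := Submodule.Quotient.mk_surjective O t
      obtain ⟨i, b, hb⟩ := hx x
      refine ⟨i, ?_⟩
      rw [← Submodule.Quotient.mk_smul, Submodule.Quotient.mk_eq_zero, hmemO]
      exact ⟨b, by rw [Algebra.smul_def, map_pow, hb]⟩
    · -- the r-torsion is R / m0
      let g0 : R →ₗ[R] κ ⧸ O :=
        O.mkQ ∘ₗ ((LinearMap.mulLeft R ((algebraMap R κ r)⁻¹)) ∘ₗ Algebra.linearMap R κ)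
      have hg0 : ∀ a, g0 a = Submodule.Quotient.mk ((algebraMap R κ r)⁻¹ * algebraMap R κ a) :=
        fun a => rfl
      let g : R →ₗ[R] Submodule.torsionBy R (κ ⧸ O) r :=
        LinearMap.codRestrict _ g0 (fun a => by
          rw [Submodule.mem_torsionBy_iff, hg0, ← Submodule.Quotient.mk_smul,
            Submodule.Quotient.mk_eq_zero, hmemO]
          exact ⟨a, by rw [Algebra.smul_def, ← mul_assoc, mul_inv_cancel₀ hr, one_mul]⟩)
      have hsurj : Function.Surjective g := by
        rintro ⟨t, ht⟩
        obtain ⟨x, rfl⟩ := Submodule.Quotient.mk_surjective O t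
        rw [Submodule.mem_torsionBy_iff, ← Submodule.Quotient.mk_smul,
          Submodule.Quotient.mk_eq_zero, hmemO] at ht
        obtain ⟨a, ha⟩ := ht
        refine ⟨a, Subtype.ext ?_⟩
        change g0 a = _
        rw [hg0, ha, Algebra.smul_def, ← mul_assoc, inv_mul_cancel₀ hr, one_mul]
      have hker : m0 = LinearMap.ker g := by
        ext a
        rw [hm0, LinearMap.mem_ker]
        have h3 : g a = 0 ↔ g0 a = 0 := by
          rw [Subtype.ext_iff]; rfl
        rw [h3, hg0, Submodule.Quotient.mk_eq_zero, hmemO]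
        constructor
        · rintro ⟨b, hb⟩
          exact ⟨b, by rw [hb, ← mul_assoc, inv_mul_cancel₀ hr, one_mul]⟩
        · rintro ⟨b, hb⟩
          exact ⟨b, by rw [hb, ← mul_assoc, mul_inv_cancel₀ hr, one_mul]⟩
      exact pm_iso hP ((Submodule.quotEquivOfEq _ _ hker).trans
        (LinearMap.quotKerEquivOfSurjective g hsurj)) h2
  exact pm₁ hP O.subtype O.mkQ (Submodule.subtype_injective _)
    (LinearMap.exact_subtype_mkQ O) (Submodule.mkQ_surjective O) h1 hT

end

end Pool.Agent.H.MP_e7c909_al
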