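import Pool.Agent.H.MP_e7c909_al.DCoproduct
import Pool.Agent.H.MP_e7c909_al.Defs

set_option autoImplicit false

open CategoryTheory Limits DirectSum

namespace Pool.Agent.H.MP_e7c909_al

universe w

section
variable {R : Type} [CommRing R] [HasDerivedCategory.{w} (ModuleCat.{0} R)]
  {P : ObjectProperty (DerivedCategory (ModuleCat.{0} R))} (hP : IsLocalizing R P)

/-- the predicate on modules -/
def PM (P : ObjectProperty (DerivedCategory (ModuleCat.{0} R))) (M : Type) [AddCommGroup M]
    [Module R M] : Prop := P (inDegZero R M)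

include hP

lemma pm_iso {M N : Type} [AddCommGroup M] [Module R M] [AddCommGroup N] [Module R N]
    (e : M ≃ₗ[R] N) (h : PM P M) : PM P N := by
  have := hP.iso
  exact P.prop_of_iso ((DerivedCategory.singleFunctor (ModuleCat.{0} R) 0).mapIso
    e.toModuleIso) h

section
variable {L M N : Type} [AddCommGroup L] [Module R L] [AddCommGroup M] [Module R M]
  [AddCommGroup N] [Module R N] (f : L →ₗ[R] M) (g : M →ₗ[R] N)
  (hf : Function.Injective f) (hfg : Function.Exact f g) (hg : Function.Surjective g)

omit [HasDerivedCategory.{w} (ModuleCat.{0} R)] hP in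
include hf hg in
lemma shortExact_mk :
    (ShortComplex.mk (ModuleCat.ofHom f) (ModuleCat.ofHom g) (by
      rw [← ModuleCat.ofHom_comp, hfg.linearMap_comp_eq_zero]; rfl)).ShortExact where
  exact := (ShortComplex.ShortExact.moduleCat_exact_iff_function_exact _).2 hfg
  mono_f := (ModuleCat.mono_iff_injective _).2 hf
  epi_g := (ModuleCat.epi_iff_surjective _).2 hg

include hf hfg hg

lemma pm₁ (hM : PM P M) (hN : PM P N) : PM P L := by
  have := hP.iso
  have := hP.tri
  exact P.ext_of_isTriangulatedClosed₁ _
    (shortExact_mk f g hf hfg hg).singleTriangle_distinguished hM hN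

lemma pm₂ (hL : PM P L) (hN : PM P N) : PM P M := by
  have := hP.iso
  have := hP.tri
  exact P.ext_of_isTriangulatedClosed₂ _
    (shortExact_mk f g hf hfg hg).singleTriangle_distinguished hL hN

lemma pm₃ (hL : PM P L) (hM : PM P M) : PM P N := by
  have := hP.iso
  have := hP.tri
  exact P.ext_of_isTriangulatedClosed₃ _
    (shortExact_mk f g hf hfg hg).singleTriangle_distinguished hL hM

end

lemma pm_zero {M : Type} [AddCommGroup M] [Module R M] [Subsingleton M] : PM P M := by
  have := hP.iso
  have := hP.tri
  have h0 : IsZero (ModuleCat.of R M) := ModuleCat.isZero_of_subsingleton _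
  have h1 : IsZero (inDegZero R M) :=
    (DerivedCategory.singleFunctor (ModuleCat.{0} R) 0).map_isZero h0
  exact P.prop_of_isZero h1

lemma pm_directSum {J : Type} [DecidableEq J] (M : J → Type) [∀ j, AddCommGroup (M j)]
    [∀ j, Module R (M j)] (h : ∀ j, PM P (M j)) : PM P (⨁ j, M j) := by
  let Z : J → ModuleCat.{0} R := fun j => ModuleCat.of R (M j)
  have hc := ModuleCat.coproductCoconeIsColimit Z
  have hex : HasExactColimitsOfShape (Discrete J) (ModuleCat.{0} R) := inferInstance
  have h0 : PreservesColimitsOfShape (Discrete J)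
      (CochainComplex.singleFunctor (ModuleCat.{0} R) 0) :=
    inferInstanceAs (PreservesColimitsOfShape (Discrete J)
      (HomologicalComplex.single (ModuleCat.{0} R) (ComplexShape.up ℤ) 0))
  have h1 : PreservesColimitsOfShape (Discrete J)
      (CochainComplex.singleFunctor (ModuleCat.{0} R) 0 ⋙
        (DerivedCategory.Q : CochainComplex (ModuleCat.{0} R) ℤ ⥤ _)) :=
    comp_preservesColimitsOfShape _ _
  have h2 : PreservesColimitsOfShape (Discrete J)
      (DerivedCategory.singleFunctor (ModuleCat.{0} R) 0) :=
    preservesColimitsOfShape_of_natIso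
      (DerivedCategory.singleFunctorIsoCompQ (ModuleCat.{0} R) 0).symm
  have hc' := isColimitCofanMkObjOfIsColimit (DerivedCategory.singleFunctor (ModuleCat.{0} R) 0)
    _ _ hc
  exact hP.coprod J _ _ ⟨hc'⟩ h

/-- telescope: a module which is the union of an increasing sequence of submodules -/
lemma pm_union {M : Type} [AddCommGroup M] [Module R M] (N : ℕ → Submodule R M)
    (hmono : Monotone N) (htop : ∀ m : M, ∃ i, m ∈ N i) (h : ∀ i, PM P (N i)) : PM P M := by
  classical
  let inc : ∀ i, N i →ₗ[R] N (i + 1) := fun i => Submodule.inclusion (hmono (Nat.le_succ i))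
  let D : (⨁ i, N i) →ₗ[R] (⨁ i, N i) := DirectSum.toModule R ℕ _ (fun i =>
    DirectSum.lof R ℕ (fun i => N i) i - DirectSum.lof R ℕ (fun i => N i) (i + 1) ∘ₗ inc i)
  let S : (⨁ i, N i) →ₗ[R] M := DirectSum.toModule R ℕ _ (fun i => (N i).subtype)
  have hDlof : ∀ i (x : N i), D (DirectSum.lof R ℕ (fun i => N i) i x) =
      DirectSum.lof R ℕ (fun i => N i) i x -
        DirectSum.lof R ℕ (fun i => N i) (i + 1) (inc i x) := fun i x => by
    simp [D]
  have hSlof : ∀ i (x : N i), S (DirectSum.lof R ℕ (fun i => N i) i x) = x := fun i x => by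
    simp [S]
  have hSD : ∀ y, S (D y) = 0 := by
    intro y
    induction y using DirectSum.induction_on with
    | zero => simp
    | of i x =>
      change S (D (DirectSum.lof R ℕ (fun i => N i) i x)) = 0
      rw [hDlof, map_sub, hSlof, hSlof]
      simp [inc]
    | add x y hx hy => rw [map_add, map_add, hx, hy, add_zero]
  -- congruence modulo the range of D
  have hstep : ∀ i (x : N i) m (him : i ≤ m),
      DirectSum.lof R ℕ (fun i => N i) i x -
        DirectSum.lof R ℕ (fun i => N i) m ⟨x.1, hmono him x.2⟩ ∈ LinearMap.range D := by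
    intro i x m him
    induction m, him using Nat.le_induction with
    | base => simp
    | succ m him ih =>
      have h1 : DirectSum.lof R ℕ (fun i => N i) i x -
          DirectSum.lof R ℕ (fun i => N i) (m + 1) ⟨x.1, hmono (Nat.le_succ_of_le him) x.2⟩ =
          (DirectSum.lof R ℕ (fun i => N i) i x -
            DirectSum.lof R ℕ (fun i => N i) m ⟨x.1, hmono him x.2⟩) +
          D (DirectSum.lof R ℕ (fun i => N i) m ⟨x.1, hmono him x.2⟩) := by
        rw [hDlof]
        have : inc m ⟨x.1, hmono him x.2⟩ = ⟨x.1, hmono (Nat.le_succ_of_le him) x.2⟩ := rfl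
        rw [this]; abel
      rw [h1]
      exact Submodule.add_mem _ ih (LinearMap.mem_range_self D _)
  have hcong : ∀ y, ∃ n, ∃ z : N n, y - DirectSum.lof R ℕ (fun i => N i) n z ∈
      LinearMap.range D := by
    intro y
    induction y using DirectSum.induction_on with
    | zero => exact ⟨0, 0, by simp⟩
    | of i x => exact ⟨i, x, by
        change DirectSum.lof R ℕ (fun i => N i) i x - _ ∈ _
        simp⟩
    | add x y hx hy =>
      obtain ⟨n, z, hz⟩ := hx
      obtain ⟨n', z', hz'⟩ := hy
      have hw := hstep n z (max n n') (le_max_left _ _)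
      have hw' := hstep n' z' (max n n') (le_max_right _ _)
      refine ⟨max n n', ⟨z.1, hmono (le_max_left _ _) z.2⟩ + ⟨z'.1, hmono (le_max_right _ _) z'.2⟩,
        ?_⟩
      rw [map_add]
      have := Submodule.add_mem _ (Submodule.add_mem _ hz hw) (Submodule.add_mem _ hz' hw')
      convert this using 1
      abel
  -- exactness
  have hex : Function.Exact D S := by
    intro y
    constructor
    · intro hy
      obtain ⟨n, z, hz⟩ := hcong y
      obtain ⟨w, hw⟩ := hz
      have h1 : S (DirectSum.lof R ℕ (fun i => N i) n z) = 0 := by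
        have h2 := congrArg S hw
        rw [hSD, map_sub, hy, zero_sub] at h2
        rw [← neg_eq_zero, ← h2]
      rw [hSlof] at h1
      have h3 : z = 0 := Subtype.ext h1
      rw [h3, map_zero, sub_zero] at hw
      exact ⟨w, hw⟩
    · rintro ⟨w, rfl⟩
      exact hSD w
  have hsurj : Function.Surjective S := by
    intro m
    obtain ⟨i, hi⟩ := htop m
    exact ⟨DirectSum.lof R ℕ (fun i => N i) i ⟨m, hi⟩, hSlof i _⟩
  have hcomp0 : ∀ y, (D y) 0 = y 0 := by
    intro y
    induction y using DirectSum.induction_on with
    | zero => simp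
    | of i x =>
      change (D (DirectSum.lof R ℕ (fun i => N i) i x)) 0 =
        (DirectSum.lof R ℕ (fun i => N i) i x) 0
      rw [hDlof]
      simp only [DirectSum.sub_apply, DirectSum.lof_eq_of]
      rw [DirectSum.of_eq_of_ne (i + 1) 0 _ (by omega), sub_zero]
    | add x y hx hy => rw [map_add, DirectSum.add_apply, hx, hy, DirectSum.add_apply]
  have hcompS : ∀ y i, (D y) (i + 1) = y (i + 1) - inc i (y i) := by
    intro y i
    induction y using DirectSum.induction_on with
    | zero => simp
    | of j x =>
      change (D (DirectSum.lof R ℕ (fun i => N i) j x)) (i + 1) =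
        (DirectSum.lof R ℕ (fun i => N i) j x) (i + 1) -
          inc i ((DirectSum.lof R ℕ (fun i => N i) j x) i)
      rw [hDlof]
      simp only [DirectSum.sub_apply, DirectSum.lof_eq_of]
      congr 1
      by_cases hij : i = j
      · subst hij
        rw [DirectSum.of_eq_same, DirectSum.of_eq_same]
      · rw [DirectSum.of_eq_of_ne (j + 1) (i + 1) _ (by omega),
          DirectSum.of_eq_of_ne j i _ (by omega), map_zero]
    | add x y hx hy =>
      rw [map_add, DirectSum.add_apply, hx, hy, DirectSum.add_apply, DirectSum.add_apply, map_add]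
      abel
  have hinj : Function.Injective D := by
    rw [← LinearMap.ker_eq_bot, LinearMap.ker_eq_bot']
    intro y hy
    have h1 : ∀ i, y i = 0 := by
      intro i
      induction i with
      | zero => rw [← hcomp0, hy]; rfl
      | succ i ih =>
        have h2 := hcompS y i
        rw [hy, ih, map_zero, sub_zero] at h2
        rw [← h2]; rfl
    ext i
    rw [h1 i]
    rfl
  exact pm₃ hP D S hinj hex hsurj (pm_directSum hP _ h) (pm_directSum hP _ h)

end

end Pool.Agent.H.MP_e7c909_al
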