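import Pool.Agent.H.MP_e7c909_al.Defs

set_option autoImplicit false

open PowerSeries

namespace Pool.Agent.H.MP_e7c909_al

noncomputable section

/-- The ring `k + ⊕ X k⟦X⟧` for `k = ℚ`: sequences of power series with the same constant term
`c`, almost all of them equal to the constant `c`. -/
def RR : Subring (ℕ → PowerSeries ℚ) where
  carrier := {f | ∃ c : ℚ, (∀ n, constantCoeff (f n) = c) ∧ ∃ N, ∀ n, N ≤ n → f n = C c}
  mul_mem' := by
    rintro f g ⟨c, hc, N, hN⟩ ⟨d, hd, M, hM⟩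
    refine ⟨c * d, fun n => ?_, max N M, fun n hn => ?_⟩
    · rw [Pi.mul_apply, map_mul, hc, hd]
    · rw [Pi.mul_apply, hN n (le_trans (le_max_left _ _) hn),
        hM n (le_trans (le_max_right _ _) hn), map_mul]
  one_mem' := ⟨1, fun n => by simp, 0, fun n _ => by simp⟩
  add_mem' := by
    rintro f g ⟨c, hc, N, hN⟩ ⟨d, hd, M, hM⟩
    refine ⟨c + d, fun n => ?_, max N M, fun n hn => ?_⟩
    · rw [Pi.add_apply, map_add, hc, hd]
    · rw [Pi.add_apply, hN n (le_trans (le_max_left _ _) hn),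
        hM n (le_trans (le_max_right _ _) hn), map_add]
  zero_mem' := ⟨0, fun n => by simp, 0, fun n _ => by simp⟩
  neg_mem' := by
    rintro f ⟨c, hc, N, hN⟩
    refine ⟨-c, fun n => ?_, N, fun n hn => ?_⟩
    · rw [Pi.neg_apply, map_neg, hc]
    · rw [Pi.neg_apply, hN n hn, map_neg]

/-- the `n`-th component -/
def ev (n : ℕ) : RR →+* PowerSeries ℚ := (Pi.evalRingHom (fun _ => PowerSeries ℚ) n).comp RR.subtype

/-- the common constant term -/
def cst : RR →+* ℚ := (constantCoeff (R := ℚ)).comp (ev 0)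

lemma ev_apply (n : ℕ) (f : RR) : ev n f = f.1 n := rfl

lemma constantCoeff_ev (n : ℕ) (f : RR) : constantCoeff (ev n f) = cst f := by
  obtain ⟨c, hc, -⟩ := f.2
  change constantCoeff (f.1 n) = constantCoeff (f.1 0)
  rw [hc, hc]

lemma tail (f : RR) : ∃ N, ∀ n, N ≤ n → ev n f = C (cst f) := by
  obtain ⟨c, hc, N, hN⟩ := f.2
  refine ⟨N, fun n hn => ?_⟩
  change f.1 n = C (constantCoeff (f.1 0))
  rw [hc, hN n hn]

lemma ext_ev {f g : RR} (h : ∀ n, ev n f = ev n g) : f = g := Subtype.ext (funext h)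

/-- the element which is `g` at `n` and constant elsewhere -/
def lft (n : ℕ) (g : PowerSeries ℚ) : RR :=
  ⟨fun j => if j = n then g else C (constantCoeff g), constantCoeff g, fun j => by
    dsimp only
    split_ifs <;> simp, n + 1, fun j hj => by
    dsimp only
    rw [if_neg (by omega)]⟩

lemma ev_lft_same (n : ℕ) (g : PowerSeries ℚ) : ev n (lft n g) = g := by
  change (if n = n then g else _) = g
  rw [if_pos rfl]

lemma ev_lft_ne {n j : ℕ} (h : j ≠ n) (g : PowerSeries ℚ) :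
    ev j (lft n g) = C (constantCoeff g) := by
  change (if j = n then g else _) = _
  rw [if_neg h]

lemma ev_surjective (n : ℕ) : Function.Surjective (ev n) := fun g => ⟨lft n g, ev_lft_same n g⟩

lemma cst_surjective : Function.Surjective cst := fun c => ⟨lft 0 (C c), by
  change constantCoeff (ev 0 (lft 0 (C c))) = c
  rw [ev_lft_same]; simp⟩

/-- the uniformizer of the `n`-th branch -/
def rn (n : ℕ) : RR := lft n X

lemma ev_rn_same (n : ℕ) : ev n (rn n) = X := ev_lft_same n X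

lemma ev_rn_ne {n j : ℕ} (h : j ≠ n) : ev j (rn n) = 0 := by
  rw [rn, ev_lft_ne h]; simp

/-- the closed point -/
def m0 : Ideal RR := RingHom.ker cst

/-- the generic point of the `n`-th branch -/
def pp (n : ℕ) : Ideal RR := RingHom.ker (ev n)

instance : m0.IsMaximal := RingHom.ker_isMaximal_of_surjective cst cst_surjective

instance (n : ℕ) : (pp n).IsPrime := RingHom.ker_isPrime (ev n)

lemma mem_m0 (f : RR) : f ∈ m0 ↔ cst f = 0 := RingHom.mem_ker

lemma mem_pp (n : ℕ) (f : RR) : f ∈ pp n ↔ ev n f = 0 := RingHom.mem_ker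

lemma pp_le_m0 (n : ℕ) : pp n ≤ m0 := by
  intro f hf
  rw [mem_pp] at hf
  rw [mem_m0, ← constantCoeff_ev n, hf, map_zero]

lemma rn_mem_m0 (n : ℕ) : rn n ∈ m0 := by
  rw [mem_m0, ← constantCoeff_ev n, ev_rn_same]; simp

lemma rn_not_mem_pp (n : ℕ) : rn n ∉ pp n := by
  rw [mem_pp, ev_rn_same]
  exact X_ne_zero

/-- The spectrum of `RR` is not weakly noetherian: the closed point `m0` is not weakly visible. -/
theorem not_weaklyNoetherian : ¬ WeaklyNoetherian (PrimeSpectrum RR) := by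
  classical
  intro h
  obtain ⟨Y₁, Y₂, ⟨S₁, hS₁, rfl⟩, ⟨S₂, hS₂, rfl⟩, hx⟩ := h ⟨m0, inferInstance⟩
  have hx1 : (⟨m0, inferInstance⟩ : PrimeSpectrum RR) ∈ ⋃₀ S₁ ∩ (⋃₀ S₂)ᶜ := by
    rw [← hx]; rfl
  obtain ⟨⟨Z, hZ, hxZ⟩, hx2⟩ := hx1
  obtain ⟨hZc, hZq⟩ := hS₁ Z hZ
  obtain ⟨t, ht⟩ := PrimeSpectrum.isCompact_isOpen_iff.1 ⟨hZq, hZc.isOpen_compl⟩
  have hZt : Z = PrimeSpectrum.zeroLocus (t : Set RR) := (compl_injective ht).symm
  have htm : ∀ f ∈ t, f ∈ m0 := by
    intro f hf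
    rw [hZt, PrimeSpectrum.mem_zeroLocus] at hxZ
    exact hxZ hf
  have hN : ∃ N, ∀ f ∈ t, ev N f = 0 := by
    choose N hN using tail
    refine ⟨t.sup N, fun f hf => ?_⟩
    rw [hN f _ (Finset.le_sup hf), (mem_m0 f).1 (htm f hf), map_zero]
  obtain ⟨N, hN⟩ := hN
  have h1 : (⟨pp N, inferInstance⟩ : PrimeSpectrum RR) ∈ ⋃₀ S₁ := by
    refine ⟨Z, hZ, ?_⟩
    rw [hZt, PrimeSpectrum.mem_zeroLocus]
    intro f hf
    exact (mem_pp N f).2 (hN f hf)
  have h2 : (⟨pp N, inferInstance⟩ : PrimeSpectrum RR) ∉ ⋃₀ S₂ := by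
    rintro ⟨Z₂, hZ₂, hN₂⟩
    apply hx2
    refine ⟨Z₂, hZ₂, ?_⟩
    have hsp : (⟨pp N, inferInstance⟩ : PrimeSpectrum RR) ⤳ ⟨m0, inferInstance⟩ := by
      rw [← PrimeSpectrum.le_iff_specializes]
      exact pp_le_m0 N
    exact hsp.mem_closed (hS₂ Z₂ hZ₂).1 hN₂
  have h3 : (⟨pp N, inferInstance⟩ : PrimeSpectrum RR) ∈
      ({⟨m0, inferInstance⟩} : Set (PrimeSpectrum RR)) := by
    rw [hx]; exact ⟨h1, h2⟩
  have h4 : pp N = m0 := congrArg PrimeSpectrum.asIdeal (Set.mem_singleton_iff.1 h3)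
  exact rn_not_mem_pp N (h4 ▸ rn_mem_m0 N)

end

end Pool.Agent.H.MP_e7c909_al
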