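import Pool.Agent.H.MP_e7c909_al.Ring
import Pool.Agent.H.MP_e7c909_al.Dvr

set_option autoImplicit false

open PowerSeries CategoryTheory DirectSum

namespace Pool.Agent.H.MP_e7c909_al

universe w

section
variable [HasDerivedCategory.{w} (ModuleCat.{0} RR)]
  {P : ObjectProperty (DerivedCategory (ModuleCat.{0} RR))} (hP : IsLocalizing RR P)
  (hκ : ∀ p : PrimeSpectrum RR, P (inDegZero RR p.asIdeal.ResidueField))

omit [HasDerivedCategory.{w} (ModuleCat.{0} RR)] in
lemma ker_linearMap_residueField (p : Ideal RR) [p.IsPrime] :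
    LinearMap.ker (Algebra.linearMap RR p.ResidueField) = p := by
  ext a
  rw [LinearMap.mem_ker]
  exact Ideal.algebraMap_residueField_eq_zero

include hP hκ

lemma pm_m0 : PM P (RR ⧸ m0) := by
  have h1 : PM P m0.ResidueField := hκ ⟨m0, inferInstance⟩
  have hs : Function.Surjective (Algebra.linearMap RR m0.ResidueField) := by
    intro x
    obtain ⟨y, hy⟩ := (Ideal.bijective_algebraMap_quotient_residueField m0).2 x
    obtain ⟨z, rfl⟩ := Ideal.Quotient.mk_surjective y
    exact ⟨z, hy⟩
  exact pm_iso hP ((LinearMap.quotKerEquivOfSurjective _ hs).symm.trans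
    (Submodule.quotEquivOfEq _ _ (ker_linearMap_residueField m0))) h1

lemma pm_pp (n : ℕ) : PM P (RR ⧸ pp n) := by
  have h1 : PM P (pp n).ResidueField := hκ ⟨pp n, inferInstance⟩
  have hker : ∀ a b : RR, algebraMap RR (pp n).ResidueField a =
      algebraMap RR (pp n).ResidueField b ↔ ev n a = ev n b := by
    intro a b
    rw [← sub_eq_zero, ← map_sub, Ideal.algebraMap_residueField_eq_zero, mem_pp, map_sub,
      sub_eq_zero]
  have hr : algebraMap RR (pp n).ResidueField (rn n) ≠ 0 := by
    rw [Ne, Ideal.algebraMap_residueField_eq_zero]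
    exact rn_not_mem_pp n
  have h2 := pm_dvr hP (κ := (pp n).ResidueField) (rn n) hr (by
    intro x
    obtain ⟨a, b, hb, rfl⟩ := IsFractionRing.div_surjective (A := RR ⧸ pp n) x
    obtain ⟨a, rfl⟩ := Ideal.Quotient.mk_surjective a
    obtain ⟨b, rfl⟩ := Ideal.Quotient.mk_surjective b
    rw [Ideal.algebraMap_quotient_residueField_mk, Ideal.algebraMap_quotient_residueField_mk]
    have hb0 : ev n b ≠ 0 := by
      intro h0
      rw [← mem_pp] at h0
      exact nonZeroDivisors.ne_zero hb (Ideal.Quotient.eq_zero_iff_mem.2 h0)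
    have hb1 : algebraMap RR (pp n).ResidueField b ≠ 0 := by
      rw [Ne, Ideal.algebraMap_residueField_eq_zero, mem_pp]
      exact hb0
    refine ⟨(ev n b).order.toNat, lft n (ev n a * Inv_divided_by_X_pow_order hb0), ?_⟩
    rw [← mul_div_assoc, div_eq_iff hb1, ← map_pow, ← map_mul, ← map_mul, hker, map_mul, map_pow,
      map_mul, ev_lft_same, ev_rn_same]
    have h3 : X ^ (ev n b).order.toNat * divXPowOrder (ev n b) = ev n b :=
      X_pow_order_mul_divXPowOrder
    have h4 := Inv_divided_by_X_pow_order_leftInv hb0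
    calc X ^ (ev n b).order.toNat * ev n a
        = ev n a * (X ^ (ev n b).order.toNat *
          (Inv_divided_by_X_pow_order hb0 * divXPowOrder (ev n b))) := by rw [h4]; ring
      _ = ev n a * Inv_divided_by_X_pow_order hb0 *
          (X ^ (ev n b).order.toNat * divXPowOrder (ev n b)) := by ring
      _ = ev n a * Inv_divided_by_X_pow_order hb0 * ev n b := by rw [h3])
    m0 (by
      intro a
      rw [mem_m0, ← constantCoeff_ev n, ← PowerSeries.X_dvd_iff]
      constructor
      · rintro ⟨g, hg⟩
        refine ⟨lft n g, ?_⟩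
        rw [← map_mul, hker, map_mul, ev_rn_same, ev_lft_same, hg]
      · rintro ⟨b, hb⟩
        rw [← map_mul, hker, map_mul, ev_rn_same] at hb
        exact ⟨ev n b, hb⟩)
    h1 (pm_m0 hP hκ)
  exact pm_iso hP ((LinearMap.quotKerEquivRange _).symm.trans
    (Submodule.quotEquivOfEq _ _ (ker_linearMap_residueField (pp n)))) h2

/-- `RR` is in every localizing subcategory that contains all residue fields. -/
lemma pm_RR : PM P RR := by
  classical
  let ψn : ∀ n, (RR ⧸ pp n) →ₗ[RR] RR := fun n =>
    Submodule.liftQ (pp n) (LinearMap.toSpanSingleton RR RR (rn n)) (by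
      intro a ha
      rw [LinearMap.mem_ker, LinearMap.toSpanSingleton_apply, smul_eq_mul]
      apply ext_ev
      intro j
      rw [map_mul, map_zero]
      by_cases hj : j = n
      · subst hj
        rw [(mem_pp j a).1 ha, zero_mul]
      · rw [ev_rn_ne hj, mul_zero])
  have hψn : ∀ n (a : RR), ψn n (Submodule.Quotient.mk a) = a * rn n := fun n a => rfl
  let ψ : (⨁ n, RR ⧸ pp n) →ₗ[RR] RR := DirectSum.toModule RR ℕ _ ψn
  have hψlof : ∀ n (x : RR ⧸ pp n), ψ (DirectSum.lof RR ℕ (fun n => RR ⧸ pp n) n x) = ψn n x :=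
    fun n x => by simp [ψ]
  -- components
  let ρ : ∀ n, (RR ⧸ pp n) →+* PowerSeries ℚ := fun n =>
    Ideal.Quotient.lift (pp n) (ev n) (fun a ha => (mem_pp n a).1 ha)
  have hρ : ∀ n, Function.Injective (ρ n) := by
    intro n
    rw [injective_iff_map_eq_zero]
    intro x hx
    obtain ⟨a, rfl⟩ := Ideal.Quotient.mk_surjective x
    rw [Ideal.Quotient.lift_mk, ← mem_pp] at hx
    exact Ideal.Quotient.eq_zero_iff_mem.2 hx
  have hcomp : ∀ (y : ⨁ n, RR ⧸ pp n) (n : ℕ), ev n (ψ y) = X * ρ n (y n) := by
    intro y n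
    induction y using DirectSum.induction_on with
    | zero => simp
    | of i x =>
      change ev n (ψ (DirectSum.lof RR ℕ (fun n => RR ⧸ pp n) i x)) =
        X * ρ n ((DirectSum.lof RR ℕ (fun n => RR ⧸ pp n) i x) n)
      rw [hψlof]
      obtain ⟨a, rfl⟩ := Submodule.Quotient.mk_surjective (pp i) x
      rw [hψn, map_mul, DirectSum.lof_eq_of]
      by_cases hin : n = i
      · subst hin
        rw [DirectSum.of_eq_same, ev_rn_same, mul_comm]
        rfl
      · rw [DirectSum.of_eq_of_ne i n _ hin, map_zero, mul_zero, ev_rn_ne hin, mul_zero]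
    | add x y hx hy => rw [map_add, map_add, hx, hy, DirectSum.add_apply, map_add, mul_add]
  have hinj : Function.Injective ψ := by
    intro y y' h
    have h0 : ∀ n, y n = y' n := by
      intro n
      have h1 := hcomp y n
      rw [h, hcomp y' n] at h1
      exact (hρ n (mul_left_cancel₀ X_ne_zero h1)).symm
    exact DFinsupp.ext h0
  have hex : Function.Exact ψ (Submodule.mkQ m0) := by
    intro a
    rw [Submodule.mkQ_apply, Submodule.Quotient.mk_eq_zero, Set.mem_range]
    constructor
    · intro ha
      rw [mem_m0] at ha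
      obtain ⟨N, hN⟩ := tail a
      rw [ha, map_zero] at hN
      have hdvd : ∀ n, ∃ g, ev n a = X * g := by
        intro n
        have : X ∣ ev n a := by
          rw [PowerSeries.X_dvd_iff, constantCoeff_ev, ha]
        exact this
      choose g hg using hdvd
      refine ⟨∑ n ∈ Finset.range N, DirectSum.lof RR ℕ (fun n => RR ⧸ pp n) n
        (Submodule.Quotient.mk (lft n (g n))), ?_⟩
      rw [map_sum]
      apply ext_ev
      intro j
      rw [map_sum]
      have h1 : ∀ n ∈ Finset.range N, ev j (ψ (DirectSum.lof RR ℕ (fun n => RR ⧸ pp n) n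
          (Submodule.Quotient.mk (lft n (g n))))) = if n = j then ev j a else 0 := by
        intro n _
        rw [hψlof, hψn, map_mul]
        split_ifs with hnj
        · subst hnj
          rw [ev_lft_same, ev_rn_same, hg n, mul_comm]
        · rw [ev_rn_ne (fun h => hnj h.symm), mul_zero]
      rw [Finset.sum_congr rfl h1, Finset.sum_ite_eq']
      split_ifs with hj
      · rfl
      · rw [hN j (by simpa using hj)]
    · rintro ⟨y, rfl⟩
      rw [mem_m0, ← constantCoeff_ev 0, hcomp, map_mul]
      simp
  exact pm₂ hP ψ (Submodule.mkQ m0) hinj hex (Submodule.mkQ_surjective m0)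
    (pm_directSum hP _ (pm_pp hP hκ)) (pm_m0 hP hκ)

omit hP hκ in
theorem starCond_RR : StarCond RR := fun _ hP hκ => pm_RR hP hκ

end

end Pool.Agent.H.MP_e7c909_al
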